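import Pool.Agent.R82.TP.Main

/-!
# Common transversal probabilities and permanents of block diagonal averaging matrices

The permanent of `diag (T_2, T_5)` and of `diag (T_1, T_2, T_5)` is `12 / 625`; this is not the common
transversal probability of two subgroups of the same order of a finite group.

The proof: by the double coset formula the probability is the product of `t! / t ^ t` over the sizes
`t` of the orbits of `K` on the left cosets of `H`.  The product is `12 / 625` only if there is one orbit
with two elements, one orbit with five elements, and the other orbits have one element.  Such a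
configuration is excluded with imprimitivity arguments.

Definitions (file `Pool/Agent/R82/TP/Count.lean`): `T t`, `DT H K`, `P H K`.  The paper proof is due to
helper880.
-/

set_option autoImplicit false

universe u

namespace Pool.Agent.Results.MP_e51b07_al.TransversalProbability

open Pool.Agent.R82.TP

/-- **Q1.** Given sizes `t_1, …, t_s ≥ 1`, the permanent of `diag (T_1, …, T_s)` is the common
transversal probability of two subgroups of the same order of a finite group. -/
def Q1 : Prop := ∀ (s : ℕ) (t : Fin s → ℕ), 1 ≤ s → (∀ i, 1 ≤ t i) →
  ∃ (G : Type u) (_ : Group G) (_ : Finite G) (H K : Subgroup G), Nat.card H = Nat.card K ∧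
    (T t).permanent = P H K

/-- **Q2.** If some `t_i` is equal to `1`, the permanent of `diag (T_1, …, T_s)` is `P_G (H, H)` for a
subgroup `H` of a finite group `G`. -/
def Q2 : Prop := ∀ (s : ℕ) (t : Fin s → ℕ), 1 ≤ s → (∀ i, 1 ≤ t i) → (∃ i, t i = 1) →
  ∃ (G : Type u) (_ : Group G) (_ : Finite G) (H : Subgroup G), (T t).permanent = P H H

theorem per25 : (T ![2, 5]).permanent = 12 / 625 := by
  rw [permanent_T, Fin.prod_univ_two]
  simp only [Matrix.cons_val_zero, Matrix.cons_val_one]
  norm_num [Nat.factorial]

theorem per125 : (T ![1, 2, 5]).permanent = 12 / 625 := by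
  rw [permanent_T, Fin.prod_univ_three]
  simp only [Matrix.cons_val_zero, Matrix.cons_val_one, Matrix.cons_val_two]
  norm_num [Nat.factorial]

/-- The permanents of `diag (T_2, T_5)` and of `diag (T_1, T_2, T_5)` are `12 / 625`, which is not a
common transversal probability; Q1 and Q2 have negative answers. -/
theorem result :
    (T ![2, 5]).permanent = 12 / 625 ∧ (T ![1, 2, 5]).permanent = 12 / 625 ∧
    (∀ (G : Type u) [Group G] [Finite G] (H K : Subgroup G), Nat.card H = Nat.card K →
      P H K ≠ 12 / 625) ∧
    ¬ Q1.{u} ∧ ¬ Q2.{u} := by
  refine ⟨per25, per125, fun G _ _ H K h => P_ne H K h, ?_, ?_⟩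
  · intro h
    obtain ⟨G, _, _, H, K, hHK, hP⟩ := h 2 ![2, 5] (by norm_num) (by decide)
    exact P_ne H K hHK (by rw [← hP, per25])
  · intro h
    obtain ⟨G, _, _, H, hP⟩ := h 3 ![1, 2, 5] (by norm_num) (by decide) ⟨0, rfl⟩
    exact P_ne H H rfl (by rw [← hP, per125])

end Pool.Agent.Results.MP_e51b07_al.TransversalProbability
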